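import Pool.Agent.R858.Nm4

/-!
# MP_d178f2_ag: restricted quasi-diagonals exist only for bundles commensurable with `O(d[e])`

Let `E` be an elliptic curve with origin `e`, let `L` be a line bundle of degree `d ≥ 1` on `E` and let
`S ⊆ E^m` be a restricted quasi-diagonal over `(E, L)`. Let `C → S` be the normalization and let
`f_i : C → E` be the coordinates; they are not constant, because the degrees of the bundles
`p_i^* L|_S` are equal.

Let `M = f_1^* L`, `M = O(∑ a_v v)`. Up to torsion `M` is isomorphic to all `f_i^* L`, hence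
`(f_i)_* M` is up to torsion the class `deg(f_i) L`, and `∑_i (f_i)_* M ≡ (∑_i deg f_i) L`. On the
other hand `∑_i (f_i)_* M` is the class of `∑_v a_v ∑_i (f_i(v))`, and `∑_i (f_i(v)) ~ m (e)`, as
`∑_i f_i(v) = e` in the group `E`. So a positive multiple of `L` is isomorphic to a multiple of `O(e)`,
that is, `L` is commensurable with `O(d[e])`.

Curves are given by their function fields, see `Pool/Agent/Helper395/CS/Defs.lean`: the closed points
are the normalised discrete valuations of the function field over `ℂ`, and a nonconstant morphism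
`C → E` is an embedding of the function field of `E` into that of `C`.
-/

open scoped WithZero

namespace Pool.Agent.Results.MP_d178f2_ag.Commensurable

open Pool.Agent.Helper395.CS hiding genus map_mul map_inv
open Pool.Agent.Helper395.BC
open Pool.Agent.R858.QD

section

variable {F K : Type} [Field F] [Algebra ℂ F] [Field K] [Algebra ℂ K] {m : ℕ}

/-- `M` is the pull back of `L` under the morphism given by `φ`: at every point `v`, with image `p`,
the stalk of `M` is generated by the pull back of the generator of the stalk of `L` at `p`. -/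
def IsPullback (φ : F →ₐ[ℂ] K) (L : LineBundle F) (M : LineBundle K) : Prop :=
  ∀ (v : Point K) (p : Point F), LiesOver φ v p →
    v.val (M.frame v : K) = v.val (φ (L.frame p : F))

/-- The line bundles `M^t` and `N^t` are isomorphic, by multiplication with the rational function
`c`. -/
def PowersIso (t : ℕ) (M N : LineBundle K) : Prop :=
  ∃ c : K, c ≠ 0 ∧ ∀ v : Point K,
    v.val c * v.val (M.frame v : K) ^ t = v.val (N.frame v : K) ^ t

/-- The curve `S ⊆ E^m` whose normalization `C` has the function field `K` and whose coordinates are the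
morphisms `f_i : C → E` given by `φ i` satisfies the condition of a quasi-diagonal over `(E, L)`,
tested on the normalization: all `f_i^* L ⊗ (f_j^* L)⁻¹` are torsion. -/
def IsQuasiDiagonal (φ : Fin m → F →ₐ[ℂ] K) (L : LineBundle F) : Prop :=
  ∃ M : Fin m → LineBundle K, (∀ i, IsPullback (φ i) L (M i)) ∧
    ∀ i j, ∃ t : ℕ, 0 < t ∧ PowersIso t (M i) (M j)

open Classical in
/-- `∑_i f_i(v) = e` in the group `E` with origin `e`, for all `v`: the divisor `∑_i (f_i(v)) - m (e)` is
the divisor of a rational function. -/
def IsRestricted (φ : Fin m → F →ₐ[ℂ] K) (e : Point F) : Prop :=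
  ∀ v : Point K, ∃ c : F, c ≠ 0 ∧ ∀ p : Point F,
    p.ord c = (Nat.card {i : Fin m // LiesOver (φ i) v p} : ℤ) - if p = e then (m : ℤ) else 0

open Classical in
/-- `L ⊗ O(d[e])⁻¹` is torsion, where `d` is the degree of `L`: for some `t > 0` and some rational
function `c ≠ 0`, multiplication with `c` maps `L^t` onto `O(t d[e])`. -/
def IsCommensurable (L : LineBundle F) (e : Point F) : Prop :=
  ∃ t : ℕ, 0 < t ∧ ∃ c : F, c ≠ 0 ∧ ∀ p : Point F,
    p.ord c + t * p.ord (L.frame p : F) = if p = e then -(t * L.degree) else 0

end

/-- Let `E` be a curve of genus one (function field `F`) with origin `e`, `L` a line bundle of degree at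
least one on `E`, `m ≥ 2` and `S ⊆ E^m` a restricted quasi-diagonal over `(E, L)` (with
normalization `C`, of function field `K`). Then `L` is commensurable with `O(d[e])`, `d = deg L`. The
first clause says that every point of `C` has exactly one image under each coordinate. -/
theorem result :
    (∀ (F K : Type) [Field F] [Algebra ℂ F] [Field K] [Algebra ℂ K] (φ : F →ₐ[ℂ] K),
      IsCurve F → IsCurve K → ∀ v : Point K, ∃! p : Point F, LiesOver φ v p) ∧
    ∀ (F K : Type) [Field F] [Algebra ℂ F] [Field K] [Algebra ℂ K],
      IsCurve F → genus F = 1 → IsCurve K → ∀ (e : Point F) (L : LineBundle F), 1 ≤ L.degree →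
      ∀ m : ℕ, 2 ≤ m → ∀ φ : Fin m → F →ₐ[ℂ] K, IsQuasiDiagonal φ L → IsRestricted φ e →
      IsCommensurable L e := by
  refine ⟨fun F K _ _ _ _ φ hF hK v => existsUnique_image hF hK φ v, ?_⟩
  intro F K _ _ _ _ hF _ hK e L _ m hm φ ⟨M, hM, hMM⟩ hr
  have hfin : {v : Point K | v.ord ((M ⟨0, by omega⟩).frame v : K) ≠ 0}.Finite := by
    refine (M ⟨0, by omega⟩).finite.subset fun v hv h => hv ?_
    exact (v.val_eq_one_iff (Units.ne_zero _)).1 h
  have hfin2 : {p : Point F | p.ord (L.frame p : F) ≠ 0}.Finite := by
    refine L.finite.subset fun p hp h => hp ?_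
    exact (p.val_eq_one_iff (Units.ne_zero _)).1 h
  obtain ⟨t, ht, c, hc, h⟩ := commens hF hK (m := m) (by omega) φ e hr (fun p => (L.frame p : F))
    (fun p => Units.ne_zero _) hfin2 (fun v => v.ord ((M ⟨0, by omega⟩).frame v : K)) hfin (by
      intro i
      obtain ⟨t, ht, c, hc, h⟩ := hMM i ⟨0, by omega⟩
      refine ⟨t, ht, c, hc, fun v p hvp => ?_⟩
      have h1 : v.ord ((M i).frame v : K) = v.ord (φ i (L.frame p : F)) := by
        unfold Point.ord
        rw [hM i v p hvp]
      have h2 := h v
      rw [← map_pow, ← map_pow, ← map_mul] at h2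
      have h3 : v.ord (c * ((M i).frame v : K) ^ t) =
          v.ord (((M ⟨0, by omega⟩).frame v : K) ^ t) := by
        unfold Point.ord
        rw [h2]
      rw [v.ord_mul hc (pow_ne_zero _ (Units.ne_zero _)), v.ord_pow, v.ord_pow, h1] at h3
      exact h3)
  refine ⟨t, ht, c, hc, fun p => ?_⟩
  rw [h p]
  have hd : L.degree = -∑ᶠ q : Point F, q.ord (L.frame q : F) := by
    unfold LineBundle.degree
    rw [finsum_neg_distrib]
  rw [hd]
  split_ifs
  · ring
  · rfl

end Pool.Agent.Results.MP_d178f2_ag.Commensurable
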